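import Pool.Agent.KS6_11.T.All

/-!
# The Tate classes on the products of any abelian variety with all but few abelian varieties

Let `k` be a number field with the absolute Galois group `Γ`, let `K` be an algebraic closure of
`ℚ_ℓ` and `χ : Γ → Kˣ` the cyclotomic character. The cohomology of degree `2 a` of an abelian
variety is the space of the alternating forms in `2 a` variables on its rational Tate module (with
coefficients in `K`), and the Tate classes are the forms on which the elements of an open subgroup act
by `χ ^ a`.

Let `T_j` (`j` in any set `J`, which may be infinite) be representations of `Γ`, each with a
nondegenerate alternating form with the multiplier `χ` and irreducible under all subgroups of finite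
index, not isomorphic to each other under any subgroup of finite index, such that for each `j`

* the image of `Γ` on `T_j` contains a transvection (this is true if some place of `k` has toric
  reduction of dimension one, and also if the image is open in the group of the symplectic similitudes, by
  Serre for all elliptic curves without complex multiplication and all abelian varieties with the ring of
  endomorphisms `ℤ` whose dimension is odd, two or six); or
* some Frobenius element acts on `T_j` with the slopes `h + c` and `h - c`, once each, and `h`.

For example let `J` be the set of the isogeny classes (over an algebraic closure of `k`) of the elliptic
curves without complex multiplication, or of all abelian varieties with open image, over `k`.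

**Theorem.** To each representation `U` of `Γ` (for example, the Tate module of ANY abelian variety over `k`)
one can attach a finite set `E (U)` of exceptional members with `∑ dim T_j ≤ dim U` (sum over `j ∈ E (U)`) such that
the following is true. Let `B` be an abelian variety whose Tate module is generated by some
`U_1, ..., U_m` (`IsGeneratedBy`: by subquotients of tensor products of the `U_i` and of sums of characters; so `B`
may be any product of abelian varieties with the Tate modules `U_1, ..., U_m`, with any multiplicities, and of abelian
varieties with complex multiplication), and `A` an abelian variety whose Tate module is, under an open subgroup,
a sum of copies of the `T_j` which are not exceptional for any `U_i`. Then all Tate classes on `A × B` are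
combinations of products of Tate classes of codimension one and of pull-backs of Tate classes on `B`.

By the theorem of Faltings (the Tate classes of codimension one are algebraic) the Tate conjecture is true for `A × B`
in the codimensions at most `n` if and only if it is true for `B` in the codimensions at most `n`, for all `n`.

So for every abelian variety `B` at most `dim B` isogeny classes of elliptic curves without complex
multiplication are exceptional, and for all other elliptic curves `C_1, ..., C_r` and all exponents the Tate
conjecture for `B ^ m × C_1 ^ {m_1} × ... × C_r ^ {m_r}` is equivalent to the one for `B ^ m`. If
`dim U < dim T_j` then `T_j` is not exceptional for `U`.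
-/

namespace Pool.Agent.Results.MP_90d181_ag.AllButFewFactors

open Pool.Agent.Y127.G Pool.Agent.Q71.AB.P Pool.Agent.KS6_11.T

/-- **Tate classes on `A × B` for any `B` and all `A` without the factors in a finite set.** -/
theorem result {K : Type} [Field K] [CharZero K] [IsAlgClosed K] {Γ : Type} [Group Γ]
    {χ : Γ →* Kˣ} {J : Type} {T : J → FRep K Γ}
    (hT : ∀ j, IsSymplectic χ (act (T j))) (hF : ∀ j, HasTransvection (T j) ∨ ThreeSlopes (T j))
    (hiso : ∀ i j, i ≠ j → ¬PotIso K (act (T i)) (act (T j))) :
    ∃ E : FRep K Γ → Finset J, (∀ U, ∑ j ∈ E U, dim (T j) ≤ dim U) ∧
      ∀ (m : ℕ) (U : Fin m → FRep K Γ) (A B : FRep K Γ),
        IsSumOf (fun j : {j // ∀ i, j ∉ E (U i)} => T j) A → IsGeneratedBy U B →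
        TateGenerated χ A B :=
  Pool.Agent.KS6_11.T.final hT
    (fun j => (hF j).elim Pool.Agent.Q71.AB.brg_full_transv Pool.Agent.Q71.AB.brg_full_slopes) hiso

end Pool.Agent.Results.MP_90d181_ag.AllButFewFactors
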