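import Mathlib
import Pool.Agent.KS6_5.OG.EllNum

/-!
# The Tate conjecture for products of abelian varieties over number fields with abelian varieties with
one Frobenius whose numbers have different real fields with one place above `p`

Let `A` be an abelian variety over a number field `k₀` (any dimension, any endomorphisms) and `γ` a
Frobenius element of the Galois group `Γ` of `k₀` at **one** place of good reduction, the residue field
having `q = p ^ a` elements, for which the characteristic polynomial on the Tate module `V = V_ℓ(A)`
is the product of the minimal polynomials of Weil numbers `π i` in CM fields `E i` (`i` in a finite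
set), with the following properties (`IsOnePlaceNumbers`):

* `π i` generates `E i`, and `π i`, `π j` are not conjugate for `i ≠ j`;
* the slopes of the conjugates of `π i` are `1 / 2 + δ i` and `1 / 2 - δ i` only, `δ i > 0` (for
  ordinary reduction all `δ i` are `1 / 2`), and for `δ i ≠ δ j` no power of `z ^ 2 / q` is a power of
  `z' ^ 2 / q`, for the conjugates `z` of `π i` and `z'` of `π j`;
* for each conjugate `z` of each `π i`, for some `m > 0`, the number `z ^ m + (q / z) ^ m` is contained
  in a Galois extension of `ℚ` with one place above `p` and with cyclic Sylow `2`-subgroups of the
  Galois group: for instance in a cyclic field in which `p` is inert or totally ramified, or in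
  any Galois field of odd degree in which `p` does not split. **This field may be different for
  different `z` and `i`**;
* `z z' / q` is not a root of unity different from one, for all conjugates `z`, `z'` of the `π i`
  (this is true after a finite extension of `k₀`).

The last part of the theorem: the conditions are satisfied if the `E i` are **different imaginary
quadratic fields** and `p` does not divide `b i = π i + q / π i`, i. e. for reductions isogenous to a
product of pairwise nonisogenous ordinary elliptic curves. (The abelian variety `A` itself can be
absolutely simple with `End(A) = ℤ`.) Other examples: reductions isogenous to products of such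
elliptic curves, ordinary abelian surfaces with real multiplication by quadratic fields in which `p`
is inert or ramified, ordinary abelian varieties of any dimension `d` with real multiplication by
cyclic fields of degree `d` in which `p` is inert, in arbitrary number, pairwise nonisogenous over
an algebraic closure.

Let `B` be **any** abelian variety, or any smooth variety over `k₀`, and `M` a subquotient of
`H^b(B, ℚ_ℓ(i))` (or any other representation of `Γ`) such that the eigenvalues of `γ` on `M` are
roots of a polynomial `f ≠ 0` with rational coefficients (if `B` has good reduction at the place, for
instance) satisfying `NarrowUnrelated` for **some** real number `w ≥ 0`: the slopes of each root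
`β` lie in an interval of length `w` (which is no condition for large `w`), and there is no
relation `(z 1 ⋯ z n) ^ m * β ^ N = q ^ c`, `m, N > 0`, with `n > 0` conjugates `z i` of the numbers
`π (k i)`, no two of them with product `q`, and with `∑ (2 δ (k i)) ^ 2 ≤ w ^ 2`. For ordinary
reduction the last condition is `n ≤ w ^ 2`: **although `A` can have any dimension, only products of
few of the numbers have to be compared with the eigenvalues of `B`.** If `w < 2 δ i` for all `i` there
are no such products (second part of the theorem), and so there is no condition at all on the fields.

Then (`ClassesSplit`) **the classes in `H^j(A ^ r) ⊗ M` which are fixed by an open subgroup of `Γ` are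
zero for odd `j`, and linear combinations of products of `m` Tate classes of degree two on `A ^ r`
(that is, of divisor classes, by Faltings) and of Tate classes in `M(-m)` for `j = 2 m`**, for all
`r`. The classes in `H^j(A ^ r) ⊗ M` are the alternating maps of `j` variables from `V ^ r` to `M`. So
for all these `A` and `B` the Tate conjecture for `A ^ r × B`, for all `r`, in all codimensions, over
all finite extensions of `k₀`, follows from the Tate conjecture for `B`; with `B` a point
(`f = X - 1`, `w = 0`: no condition) it holds for `A ^ r`. The hypotheses on `V` (`IsPolarised`) are
the Weil pairing and the semisimplicity (Faltings).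

Relation to other results. In the starting files on this problem one Frobenius element was used
with absolutely irreducible fields which are mutually unrelated, almost all types, prime
dimension, distinct sign characters, or a number with a single pair of slopes. In my
`OnePlaceOfRealField` (problem MP_2a05c8_ag) all the real multiplications are contained in **one**
field `F` with one place above `p` in question, and there are automorphisms acting on all numbers
by signs. Here the fields are different, their composite has many places above `p`, and the proof
is different. The arithmetic is that of `OnePlaceDifferentFields` (MP_2a05c8_ag, Frobenius invariant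
classes over a finite field); new here are the classes of all finitely generated fields, like number
fields, that is, invariants of the group `Γ` and not of one element: the Tate classes of `M(-m)` are
invariant under an open subgroup of `Γ`. For products of elliptic curves the conjecture is known
for `B` a point (Imai, Murty, Serre, Spiess).

The proof. (1) The logarithms of the absolute values of the conjugates of `x = z ^ 2 / q` define a
function `F₁` with values `± 1` (times `δ`) on the Galois group `G` of the algebraic numbers. If the
field `F` of `x + 1 / x` has one place above `p` then `G = D H₁`, where `F₁` is invariant on the left by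
the decomposition group `D`, and multiplied by a sign under the right translations by the elements
of the normal subgroup `H₁` of the automorphisms over `F`. Let `F₂`, `H₂` belong to another number
`y`. Then `B(h', h) = P(h' h) P(h') P(h) P(1)`, with `P = F₁ F₂`, is given by the commutator of `H₁` and
`H₂`. It is a bilinear form on `H₁ / (H₁ ∩ H₂)` with `B(h, h) = 1`, unless `P` changes its sign under a
right translation by a square; so it is trivial if the Sylow `2`-subgroups are cyclic. Hence `P` is
constant or changes its sign under some right translation: the functions of slopes of `x` and `y`
are proportional or orthogonal to each other. If they are proportional, the numbers are equal or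
inverse to each other up to roots of unity. (2) In a relation between `β` and conjugates of the
`π i` we match the pairs with product `q` as long as possible. The mean square of the sum of the
functions of slopes of the `n` unmatched numbers is at least `∑ (2 δ (k i)) ^ 2`, and at most
`w ^ 2`, as this sum is, up to a constant, twice the function of slopes of `β`. So the unmatched part
is short, and hence empty by hypothesis: the relation is balanced, each embedding and its complex
conjugate occur equally often. (3) The classes are then computed by the semisimplicity as in the
starting files (H204R3, Y137): the equivariant maps are combinations of products of pairings.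
-/

set_option autoImplicit false

namespace Pool.Agent.Results.MP_90d181_ag.DifferentRealFields

open NumberField Polynomial IntermediateField Pool.Agent.Y137.MV Pool.Agent.Y137.SL
  Pool.Agent.KS6_5.OC Pool.Agent.KS6_5.OG

/-- The Tate classes on `A ^ r × B` come from `A ^ r` in degree two and from `B`, whenever the
characteristic polynomial of `γ` on `V` is the product of the minimal polynomials of the `π i` and the
eigenvalues of `γ` on `M` are roots of a polynomial whose roots have slopes in intervals of length
`w`, and no short relations with the conjugates of the `π i`. -/
def SplitsFor (p : ℕ) [Fact p.Prime] (a : ℕ) {I : Type} [Fintype I] (δ : I → ℝ) (w : ℝ)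
    {E : I → Type} [∀ i, Field (E i)] [∀ i, NumberField (E i)] [∀ i, IsCMField (E i)]
    (π : ∀ i, E i) : Prop :=
  ∀ (k : Type) [Field k] [CharZero k] (V : Type) [AddCommGroup V] [Module k V]
    [FiniteDimensional k V] (M : Type) [AddCommGroup M] [Module k M] [FiniteDimensional k M]
    (Γ : Type) [Group Γ] (ρ : Representation k Γ V) (τ : Representation k Γ M) (χ : Γ →* k)
    (γ : Γ), IsPolarised ρ χ γ p a π →
    ∀ f : ℚ[X], f ≠ 0 → aeval (τ γ) (f.map (algebraMap ℚ k)) = 0 →
    NarrowUnrelated p a w δ (fun i => minpoly ℤ (π i)) f → ClassesSplit ρ χ τ

/-- **The Tate conjecture for `A ^ r × B` follows from the Tate conjecture for `B`, for the abelian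
varieties `A` over number fields with one Frobenius element whose numbers have two slopes
`1 / 2 ± δ i` and real fields, which may be different, with one place above `p` and cyclic Sylow
`2`-subgroups, and all `B` whose eigenvalues are not related to products of few of these numbers.** -/
theorem result :
    (∀ (p : ℕ) [Fact p.Prime] (a : ℕ), 0 < a → ∀ (I : Type) [Fintype I] (δ : I → ℝ) (E : I → Type)
      [∀ i, Field (E i)] [∀ i, NumberField (E i)] [∀ i, IsCMField (E i)] (π : ∀ i, E i),
      IsOnePlaceNumbers p a δ π → ∀ w : ℝ, 0 ≤ w → SplitsFor p a δ w π) ∧
    (∀ (q : ℕ) (κ : Type) (δ : κ → ℝ) (P : κ → ℤ[X]) (w : ℝ), 0 ≤ w → (∀ k, w < 2 * δ k) →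
      ∀ β : AlgebraicClosure ℚ, NoShortRelation q w δ P β) ∧
    (∀ (p : ℕ) [Fact p.Prime] (a : ℕ), 0 < a → ∀ (I : Type) (E : I → Type)
      [∀ i, Field (E i)] [∀ i, NumberField (E i)] [∀ i, IsCMField (E i)] (π : ∀ i, E i)
      (b : I → ℤ), (∀ i, ℚ⟮π i⟯ = ⊤) →
      (∀ i, minpoly ℤ (π i) = X ^ 2 - C (b i) * X + C (((p ^ a : ℕ) : ℤ))) →
      (∀ i, ¬ (p : ℤ) ∣ b i) → (∀ i, b i ^ 2 < 4 * (p ^ a : ℕ)) →
      (∀ i j, i ≠ j → ¬ IsSquare ((b i ^ 2 - 4 * (p ^ a : ℕ)) * (b j ^ 2 - 4 * (p ^ a : ℕ)))) →
      IsOnePlaceNumbers p a (fun _ : I => 1 / 2) π) := by
  refine ⟨?_, ?_, ?_⟩
  · intro p _ a ha I _ δ E _ _ _ π H w hw k _ _ V _ _ _ M _ _ _ Γ _ ρ τ χ γ hp f hf0 hfγ hf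
    exact split_of_family ha H hw ρ τ χ γ hp f hf0 hfγ hf
  · intro q κ δ P w hw h β
    exact noShortRelation_of_lt hw h β
  · intro p _ a ha I E _ _ _ π b hgen hmin hb hd h
    exact ell_numbers ha π hgen b hmin hb hd h

end Pool.Agent.Results.MP_90d181_ag.DifferentRealFields
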