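import Mathlib
import Pool.Agent.KS6_5.UR.Foreign

/-!
# The Tate conjecture for products of abelian varieties over number fields with abelian varieties with
one Frobenius element with one unit root

Let `A` be an abelian variety over a number field `k₀` (any dimension, any endomorphisms) and `γ` a
Frobenius element of the Galois group `Γ` of `k₀` at **one** place of good reduction, the residue field
having `q = p ^ a` elements, for which the characteristic polynomial on the Tate module `V = V_ℓ(A)`
is the product of the minimal polynomials of numbers `π i` of weight one in CM fields `E i` (`i` in a
finite set), with the following properties (`IsUnitRootNumbers`), the most important of which is a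
condition on the Newton polygon alone.

* `π i` has **exactly one unit root**: the slope `0` has multiplicity one (`unit`);
* for a prime number `r i` (`2` is allowed) **the numbers `1 - 2 s` are divisible by `r i`** (in the ring
  of the rational numbers with denominators prime to `r i`) for all slopes `s` of `π i` except for `0`
  and `1` (`slopes`);
* for `i ≠ j`, conjugates `z` of `π i` and `z'` of `π j`, some automorphism of the field of algebraic
  numbers fixes a power of one of the numbers `z`, `z'` and maps a power of the other one to its
  complex conjugate (`flips`; no condition if there is only one `π i`).

**There is no condition on the Galois groups and the subfields of the fields `E i`, on the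
decomposition of `p`, and on roots of unity.** The case in which all other slopes are `1 / 2` (for one
number `π`) is the case of the abelian varieties of K3 type of Zarhin. Here the other slopes can be,
for `r = 3`, `1 / 5` and `4 / 5`, `2 / 7` and `5 / 7`, `1 / 8` and `7 / 8`, and `1 / 2`; for `r = 2` all
fractions with denominators `2 m`, `m` odd, with any multiplicities.

Let `B` be **any** abelian variety, or any smooth variety over `k₀`, and `M` a subquotient of
`H^b(B, ℚ_ℓ(i))` (or any other representation of `Γ`) such that the eigenvalues of `γ` on `M` are
roots of a polynomial `f ≠ 0` with rational coefficients (if `B` has good reduction at the place, for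
instance) all of whose roots `β` are foreign (`IsForeign`): for each conjugate `z` of a `π i` some
automorphism maps `z` to `q / z`, up to a root of unity, and preserves the `p`-adic absolute values
of `β`. **The second part: this is true if all slopes of `β` are equal** (`B` a point, or
supersingular cohomology, or algebraic cohomology). **The third part: it is true if, for each `z`, an
automorphism fixes a power of `β` and conjugates a power of `z`** (for instance if the fields of `β` and
`z` are linearly disjoint, or the field of `β` is totally real); then there is no condition on the
slopes of `β`.

Then (`ClassesSplit`) **the classes in `H^j(A ^ r) ⊗ M` which are fixed by an open subgroup of `Γ` are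
zero for odd `j`, and linear combinations of products of `m` Tate classes of degree two on `A ^ r`
(that is, of divisor classes, by Faltings) and of Tate classes in `M(-m)` for `j = 2 m`**, for all
`r`. The classes in `H^j(A ^ r) ⊗ M` are the alternating maps of `j` variables from `V ^ r` to `M`. So
for all these `A` and `B` the Tate conjecture for `A ^ r × B`, for all `r`, in all codimensions, over
all finite extensions of `k₀`, follows from the Tate conjecture for `B`; with `B` a point it holds
for `A ^ r`. The hypotheses on `V` (`IsPolarised`) are the Weil pairing and the semisimplicity
(Faltings).

Relation to other results. The criteria of `SeparatedByFlips`, `DifferentRealFields` and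
`AllButFewFactors` on this problem need automorphisms of each of the fields `E i` or one place above
`p`. Starting files on other problems (`OddSlopeSums`, `TowerFrobenius` on MP_af4e75_ag,
`PairFlipNormalFrobenius` on MP_b8862a_ag) contain criteria with slopes modulo a prime number `r`;
those which need no Galois group contain the present case of one field (and of powers of `A`, without
`B`) for `r = 2`, and for `r` odd only if the common denominator of the slopes is less than `r`
(it is `5` for `r = 3` and the slopes `1 / 5`, `4 / 5`), or if `r` does not divide the degree of the
Galois closure.

The proof. For an embedding `l` of the field of algebraic numbers into the algebraic closure of the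
field of `p`-adic numbers let `F_z (l)` be the logarithm with base `q` of the absolute value of
`l (z ^ 2 / q)`. (1) There is no relation `∑ b (z) F_z = 0` with integers `b (z)`, odd under complex
conjugation and not all zero: for conjugates `z`, `z'` of different `π i`, `π j` the functions `F_z`,
`F_z'` are orthogonal for the mean value over all `l`, as the translation by the automorphism in
`flips` preserves one of them and changes the sign of the other one; so the parts in the fields
`E i` are relations. In one field let `l` be an embedding with `l (z)` a unit. Then `F_z (l) = 1`, and
all other values except for the one of `q / z` are divisible by `r`. So `b (z)` is divisible by `r`, for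
all `z`, and we can divide `b` by `r`. (2) If `β` is related to the product of the `z ^ b (z)`, then the
automorphism `h` in `IsForeign` preserves `∑ b (z) F_z`, so that `b ∘ h = b` by (1), and as `h (z) = q / z`
we get `b (z) = 0`. (3) The classes are then computed by the semisimplicity as in the starting files
(H204R3, Y137): the equivariant maps are combinations of products of pairings.
-/

set_option autoImplicit false

namespace Pool.Agent.Results.MP_90d181_ag.OneUnitRoot

open NumberField Polynomial Pool.Agent.Y137.MV Pool.Agent.Y137.SL Pool.Agent.KS6_5.OF
  Pool.Agent.KS6_5.UR

/-- The Tate classes on `A ^ r × B` come from `A ^ r` in degree two and from `B`, whenever the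
characteristic polynomial of `γ` on `V` is the product of the minimal polynomials of the `π i` and the
eigenvalues of `γ` on `M` are roots of a polynomial with foreign roots. -/
def SplitsFor (p : ℕ) [Fact p.Prime] (a : ℕ) {I : Type} [Fintype I]
    {E : I → Type} [∀ i, Field (E i)] [∀ i, NumberField (E i)] [∀ i, IsCMField (E i)]
    (π : ∀ i, E i) : Prop :=
  ∀ (k : Type) [Field k] [CharZero k] (V : Type) [AddCommGroup V] [Module k V]
    [FiniteDimensional k V] (M : Type) [AddCommGroup M] [Module k M] [FiniteDimensional k M]
    (Γ : Type) [Group Γ] (ρ : Representation k Γ V) (τ : Representation k Γ M) (χ : Γ →* k)
    (γ : Γ), IsPolarised ρ χ γ p a π →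
    ∀ f : ℚ[X], f ≠ 0 → aeval (τ γ) (f.map (algebraMap ℚ k)) = 0 →
    (∀ β : AlgebraicClosure ℚ, aeval β f = 0 → IsForeign p a π β) → ClassesSplit ρ χ τ

/-- **The Tate conjecture for `A ^ r × B` follows from the Tate conjecture for `B`, for the abelian
varieties `A` over number fields with one Frobenius element with one unit root, whose other slopes
`s ≠ 1` have `1 - 2 s` divisible by a prime, and all `B` with foreign eigenvalues.** -/
theorem result (p : ℕ) [Fact p.Prime] (a : ℕ) (ha : 0 < a) (I : Type) [Fintype I] (r : I → ℕ)
    (E : I → Type) [∀ i, Field (E i)] [∀ i, NumberField (E i)] [∀ i, IsCMField (E i)]
    (π : ∀ i, E i) (H : IsUnitRootNumbers p a r π) :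
    SplitsFor p a π ∧
    (∀ β : AlgebraicClosure ℚ,
      (∀ l l' : AlgebraicClosure ℚ →+* PadicAlgCl p, ‖l β‖ = ‖l' β‖) → IsForeign p a π β) ∧
    (∀ β : AlgebraicClosure ℚ,
      (∀ i (φ : E i →+* AlgebraicClosure ℚ), Flips (p ^ a) β (φ (π i))) → IsForeign p a π β) := by
  refine ⟨?_, fun β hβ => foreign_of_equal H.weight β hβ, fun β hβ => foreign_of_flips β hβ⟩
  intro k _ _ V _ _ _ M _ _ _ Γ _ ρ τ χ γ hp f hf0 hfγ hf
  exact split_of_unit ha H ρ τ χ γ hp f hf0 hfγ hf

end Pool.Agent.Results.MP_90d181_ag.OneUnitRoot
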