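import Mathlib
import Pool.Agent.KS6_5.OF.Numbers

/-!
# The Tate conjecture for products of abelian varieties over number fields with abelian varieties with
one Frobenius whose numbers are separated by sign changes, with arbitrary Newton polygon

Let `A` be an abelian variety over a number field `k₀` (any dimension, any endomorphisms) and `γ` a
Frobenius element of the Galois group `Γ` of `k₀` at **one** place of good reduction, the residue field
having `q = p ^ a` elements, for which the characteristic polynomial on the Tate module `V = V_ℓ(A)`
is the product of the minimal polynomials of Weil numbers `π i` in CM fields `E i` (`i` in a finite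
set), with the following properties (`IsSeparatedNumbers`). **The Newton polygon of the reduction is
arbitrary**, but no `π i` has all slopes `1 / 2`.

* `π i` generates `E i`, and `π i`, `π j` are not conjugate for `i ≠ j`;
* `(2 δ i) ^ 2 > 0` is at most the mean value of `(2 s - 1) ^ 2` over all slopes `s` of `π i`; so one can
  take `δ i = 1 / 2` for ordinary reduction;
* any two conjugates `z`, `z'` of the numbers `π i` are **separated** (`Separated`): they are equal or
  have the product `q`, up to a root of unity, or **some** automorphism of the field of algebraic
  numbers fixes a power of one of them and maps a power of the other one to its complex conjugate;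
* `z z' / q` is not a root of unity different from one, for all conjugates `z`, `z'` of the `π i`
  (this is true after a finite extension of `k₀`).

**The second part of the theorem is a criterion** (`IsTransitiveNumbers`): the last two conditions
are satisfied if the automorphisms which fix a conjugate `z` of `π i` permute the other conjugates,
except for `q / z`, transitively, and for `i ≠ j` the automorphisms which fix a conjugate of one of
the numbers `π i`, `π j` permute the conjugates of the other one transitively. So it is sufficient that
the Galois group of `π i` has only three orbits on the pairs of conjugates, and that the fields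
`ℚ(z)`, `ℚ(z')` are linearly disjoint for conjugates `z`, `z'` of different `π i`: **there is no
condition on three or more of the fields, nor on the decomposition of `p`**.

**The third part: the conditions are satisfied, with `δ i = 1 / 2`, for different imaginary quadratic
fields `E i` if `p` does not divide `b i = π i + q / π i`**, i. e. for reductions isogenous to a product
of pairwise nonisogenous ordinary elliptic curves. (The abelian variety `A` itself can be absolutely
simple with `End(A) = ℤ`.)

Let `B` be **any** abelian variety, or any smooth variety over `k₀`, and `M` a subquotient of
`H^b(B, ℚ_ℓ(i))` (or any other representation of `Γ`) such that the eigenvalues of `γ` on `M` are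
roots of a polynomial `f ≠ 0` with rational coefficients (if `B` has good reduction at the place, for
instance) satisfying `NarrowUnrelated` for **some** real number `w ≥ 0`: the slopes of each root
`β` lie in an interval of length `w` (which is no condition for large `w`), and there is no
relation `(z 1 ⋯ z n) ^ m * β ^ N = q ^ c`, `m, N > 0`, with `n > 0` conjugates `z i` of the numbers
`π (k i)`, no two of them with product `q`, and with `∑ (2 δ (k i)) ^ 2 ≤ w ^ 2`. So **although `A` can
have any dimension, only products of few of the numbers have to be compared with the eigenvalues of
`B`.** If `w < 2 δ i` for all `i` there are no such products (fourth part of the theorem), and so there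
is no condition at all on the fields.

Then (`ClassesSplit`) **the classes in `H^j(A ^ r) ⊗ M` which are fixed by an open subgroup of `Γ` are
zero for odd `j`, and linear combinations of products of `m` Tate classes of degree two on `A ^ r`
(that is, of divisor classes, by Faltings) and of Tate classes in `M(-m)` for `j = 2 m`**, for all
`r`. The classes in `H^j(A ^ r) ⊗ M` are the alternating maps of `j` variables from `V ^ r` to `M`. So
for all these `A` and `B` the Tate conjecture for `A ^ r × B`, for all `r`, in all codimensions, over
all finite extensions of `k₀`, follows from the Tate conjecture for `B`; with `B` a point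
(`f = X - 1`, `w = 0`: no condition) it holds for `A ^ r`. The hypotheses on `V` (`IsPolarised`) are
the Weil pairing and the semisimplicity (Faltings).

Relation to other results. In the library one Frobenius element was used with absolutely
irreducible fields which are mutually unrelated, almost all CM types, prime dimension, distinct sign
characters acting on all numbers simultaneously, or a number with a single pair of slopes. In
`DifferentRealFields` and `AllButFewFactors` on this problem there are two slopes only, and real
fields with one place above `p`. Here the slopes and the decomposition of `p` are arbitrary, and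
only pairs of conjugates have to be considered, each pair with its own automorphism. The arithmetic
is that of `SeparatedByFlipsTimes` (MP_6a91c2_ag and others, Frobenius invariant classes over a
finite field); new here are the classes of all finitely generated fields, like number fields, that
is, invariants of the group `Γ` and not of one element.

The proof. (1) For an embedding `l` of the field of algebraic numbers into the algebraic closure of
the field of `p`-adic numbers let `F_z (l)` be the logarithm of the absolute value of
`l (z ^ 2 / q)`. If the automorphism `g` fixes a power of `z` and conjugates a power of `z'` then the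
translation by `g` preserves `F_z` and changes the sign of `F_z'`: **so `F_z` and `F_z'` are
orthogonal to each other** for the mean value over all `l`. The mean value of `F_z ^ 2` is the one
over the slopes of `π i`, at least `(2 δ i log q) ^ 2`. (2) In a relation between `β` and conjugates of
the `π i` we match the pairs with product `q` as long as possible. The mean square of the sum of the
functions `F` of the `n` unmatched numbers is at least `∑ (2 δ (k i) log q) ^ 2`, and at most
`(w log q) ^ 2`, as this sum is, up to a constant, twice the function of slopes of `β`. So the
unmatched part is short, and hence empty by hypothesis: the relation is balanced, each embedding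
and its complex conjugate occur equally often. (3) The classes are then computed by the
semisimplicity as in the starting files (H204R3, Y137): the equivariant maps are combinations of
products of pairings.
-/

set_option autoImplicit false

namespace Pool.Agent.Results.MP_90d181_ag.SeparatedByFlips

open NumberField Polynomial IntermediateField Pool.Agent.Y137.MV Pool.Agent.Y137.SL
  Pool.Agent.KS6_5.OC Pool.Agent.KS6_5.OG Pool.Agent.KS6_5.OF

/-- The Tate classes on `A ^ r × B` come from `A ^ r` in degree two and from `B`, whenever the
characteristic polynomial of `γ` on `V` is the product of the minimal polynomials of the `π i` and the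
eigenvalues of `γ` on `M` are roots of a polynomial whose roots have slopes in intervals of length
`w`, and no short relations with the conjugates of the `π i`. -/
def SplitsFor (p : ℕ) [Fact p.Prime] (a : ℕ) {I : Type} [Fintype I] (δ : I → ℝ) (w : ℝ)
    {E : I → Type} [∀ i, Field (E i)] [∀ i, NumberField (E i)] [∀ i, IsCMField (E i)]
    (π : ∀ i, E i) : Prop :=
  ∀ (k : Type) [Field k] [CharZero k] (V : Type) [AddCommGroup V] [Module k V]
    [FiniteDimensional k V] (M : Type) [AddCommGroup M] [Module k M] [FiniteDimensional k M]
    (Γ : Type) [Group Γ] (ρ : Representation k Γ V) (τ : Representation k Γ M) (χ : Γ →* k)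
    (γ : Γ), IsPolarised ρ χ γ p a π →
    ∀ f : ℚ[X], f ≠ 0 → aeval (τ γ) (f.map (algebraMap ℚ k)) = 0 →
    NarrowUnrelated p a w δ (fun i => minpoly ℤ (π i)) f → ClassesSplit ρ χ τ

/-- **The Tate conjecture for `A ^ r × B` follows from the Tate conjecture for `B`, for the abelian
varieties `A` over number fields with one Frobenius element, with arbitrary slopes, any two of whose
numbers are separated by an automorphism which fixes one of them and conjugates the other one, and
all `B` whose eigenvalues are not related to products of few of these numbers.** -/
theorem result :
    (∀ (p : ℕ) [Fact p.Prime] (a : ℕ), 0 < a → ∀ (I : Type) [Fintype I] (δ : I → ℝ) (E : I → Type)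
      [∀ i, Field (E i)] [∀ i, NumberField (E i)] [∀ i, IsCMField (E i)] (π : ∀ i, E i),
      IsSeparatedNumbers p a δ π → ∀ w : ℝ, 0 ≤ w → SplitsFor p a δ w π) ∧
    (∀ (p : ℕ) [Fact p.Prime] (a : ℕ), 0 < a → ∀ (I : Type) (δ : I → ℝ) (E : I → Type)
      [∀ i, Field (E i)] [∀ i, NumberField (E i)] [∀ i, IsCMField (E i)] (π : ∀ i, E i),
      IsTransitiveNumbers p a δ π → IsSeparatedNumbers p a δ π) ∧
    (∀ (p : ℕ) [Fact p.Prime] (a : ℕ), 0 < a → ∀ (I : Type) (E : I → Type)
      [∀ i, Field (E i)] [∀ i, NumberField (E i)] [∀ i, IsCMField (E i)] (π : ∀ i, E i)
      (b : I → ℤ), (∀ i, ℚ⟮π i⟯ = ⊤) →
      (∀ i, minpoly ℤ (π i) = X ^ 2 - C (b i) * X + C (((p ^ a : ℕ) : ℤ))) →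
      (∀ i, ¬ (p : ℤ) ∣ b i) → (∀ i, b i ^ 2 < 4 * (p ^ a : ℕ)) →
      (∀ i j, i ≠ j → ¬ IsSquare ((b i ^ 2 - 4 * (p ^ a : ℕ)) * (b j ^ 2 - 4 * (p ^ a : ℕ)))) →
      IsSeparatedNumbers p a (fun _ : I => 1 / 2) π) ∧
    (∀ (q : ℕ) (κ : Type) (δ : κ → ℝ) (P : κ → ℤ[X]) (w : ℝ), 0 ≤ w → (∀ k, w < 2 * δ k) →
      ∀ β : AlgebraicClosure ℚ, NoShortRelation q w δ P β) := by
  refine ⟨?_, ?_, ?_, ?_⟩
  · intro p _ a ha I _ δ E _ _ _ π H w hw k _ _ V _ _ _ M _ _ _ Γ _ ρ τ χ γ hp f hf0 hfγ hf
    exact Pool.Agent.KS6_5.OF.split_of_family ha H hw ρ τ χ γ hp f hf0 hfγ hf
  · intro p _ a ha I δ E _ _ _ π H
    exact numbers_of_transitive ha π H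
  · intro p _ a ha I E _ _ _ π b hgen hmin hb hd h
    exact ell_separated_numbers ha π hgen b hmin hb hd h
  · intro q κ δ P w hw h β
    exact noShortRelation_of_lt hw h β

end Pool.Agent.Results.MP_90d181_ag.SeparatedByFlips
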